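import Pool.Agent.Hhelper36.KostkaSwap
import Pool.Agent.Hhelper36.KostkaBridge

/-!
# Finitely many stretched Kostka polynomials with a prescribed value at 1 (MP_62af7b_co)

The finiteness is stated for arbitrary weights `nu` (in any order) with `|lam| = |nu|`.
-/

set_option autoImplicit false

namespace Pool.Agent.Results.MP_62af7b_co.StretchedKostka

/-- A partition: a weakly decreasing sequence with finitely many nonzero entries. -/
def IsPartition (lam : ℕ → ℕ) : Prop := Antitone lam ∧ (Function.support lam).Finite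

/-- A weight: a sequence with finitely many nonzero entries (in any order). -/
def IsWeight (nu : ℕ → ℕ) : Prop := (Function.support nu).Finite

/-- The sum of the entries. -/
noncomputable def size (f : ℕ → ℕ) : ℕ := ∑ᶠ i, f i

/-- The cells `(row, column)` of the Young diagram of `lam`. -/
def Cell (lam : ℕ → ℕ) : Type := {x : ℕ × ℕ // x.2 < lam x.1}

/-- Semistandard Young tableaux of shape `lam` and content `nu`: the rows weakly increase, the
columns strictly increase, the entry `c` occurs `nu c` times. -/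
structure IsTableau (lam nu : ℕ → ℕ) (T : Cell lam → ℕ) : Prop where
  row : ∀ x y : Cell lam, x.1.1 = y.1.1 → x.1.2 ≤ y.1.2 → T x ≤ T y
  col : ∀ x y : Cell lam, x.1.2 = y.1.2 → x.1.1 < y.1.1 → T x < T y
  content : ∀ c : ℕ, Nat.card {x : Cell lam // T x = c} = nu c

/-- The Kostka number. -/
noncomputable def kostka (lam nu : ℕ → ℕ) : ℕ :=
  Nat.card {T : Cell lam → ℕ // IsTableau lam nu T}

/-- `p` is the stretched Kostka polynomial of `(lam, nu)`: `p(k)` is the Kostka number of
`(k lam, k nu)` for all `k ≥ 1`. -/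
def IsStretchedKostkaPolynomial (lam nu : ℕ → ℕ) (p : Polynomial ℚ) : Prop :=
  ∀ k : ℕ, 1 ≤ k → p.eval (k : ℚ) = (kostka (fun i => k * lam i) (fun i => k * nu i) : ℚ)

open Classical in
/-- Extension of a filling by zero. -/
noncomputable def extend {lam : ℕ → ℕ} (T : Cell lam → ℕ) : ℕ × ℕ → ℕ :=
  fun x => if h : x.2 < lam x.1 then T ⟨x, h⟩ else 0

theorem extend_of {lam : ℕ → ℕ} (T : Cell lam → ℕ) {x : ℕ × ℕ} (h : x.2 < lam x.1) :
    extend T x = T ⟨x, h⟩ := by
  unfold extend
  rw [dif_pos h]

open Pool.Agent.Hhelper36.Kostka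

theorem content_iff {lam : ℕ → ℕ} (T : Cell lam → ℕ) (c : ℕ) :
    Nat.card {x : Cell lam // T x = c} =
      Set.ncard {x : ℕ × ℕ | x.2 < lam x.1 ∧ extend T x = c} := by
  rw [← Nat.card_coe_set_eq]
  refine Nat.card_congr
    { toFun := fun x => ⟨x.1.1, x.1.2, by rw [extend_of T x.1.2]; exact x.2⟩
      invFun := fun x => ⟨⟨x.1, x.2.1⟩, by
        have h := x.2.2
        rwa [extend_of T x.2.1] at h⟩
      left_inv := fun x => rfl
      right_inv := fun x => rfl }

theorem tab_extend {lam nu : ℕ → ℕ} (hl : Antitone lam) (T : Cell lam → ℕ) :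
    IsTableau lam nu T ↔ Tab lam nu (extend T) := by
  constructor
  · intro h
    refine ⟨fun x hx => ?_, fun i j hij => ?_, fun i j hij => ?_, fun c => ?_⟩
    · unfold extend
      rw [dif_neg hx]
    · rw [extend_of T (x := (i, j)) (by simp only; omega), extend_of T (x := (i, j + 1)) hij]
      exact h.row _ _ rfl (Nat.le_succ j)
    · have h1 : j < lam i := hij.trans_le (hl (Nat.le_succ i))
      rw [extend_of T (x := (i, j)) h1, extend_of T (x := (i + 1, j)) hij]
      exact h.col _ _ rfl (Nat.lt_succ_self i)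
    · rw [← content_iff]
      exact h.content c
  · intro h
    refine ⟨fun x y h1 h2 => ?_, fun x y h1 h2 => ?_, fun c => ?_⟩
    · obtain ⟨⟨i, j⟩, hx⟩ := x
      obtain ⟨⟨i', j'⟩, hy⟩ := y
      simp only at h1 h2 hx hy
      subst h1
      have h3 := tab_row h h2 hy
      rw [extend_of T (x := (i, j)) hx, extend_of T (x := (i, j')) hy] at h3
      exact h3
    · obtain ⟨⟨i, j⟩, hx⟩ := x
      obtain ⟨⟨i', j'⟩, hy⟩ := y
      simp only at h1 h2 hx hy
      subst h1
      have key : ∀ d, j < lam (i + 1 + d) → extend T (i, j) < extend T (i + 1 + d, j) := by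
        intro d
        induction d with
        | zero => exact fun h4 => h.2.2.1 i j h4
        | succ d ih =>
          intro h4
          have h5 : j < lam (i + 1 + d) := h4.trans_le (hl (by omega))
          exact (ih h5).trans (h.2.2.1 (i + 1 + d) j h4)
      have h6 := key (i' - (i + 1)) (by rw [show i + 1 + (i' - (i + 1)) = i' by omega]; exact hy)
      rw [show i + 1 + (i' - (i + 1)) = i' by omega] at h6
      rw [extend_of T (x := (i, j)) hx, extend_of T (x := (i', j)) hy] at h6
      exact h6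
    · rw [content_iff]
      exact h.2.2.2 c

theorem kostka_eq {lam nu : ℕ → ℕ} (hl : Antitone lam) :
    kostka lam nu = Nat.card {T : ℕ × ℕ → ℕ // Tab lam nu T} := by
  unfold kostka
  refine Nat.card_congr
    { toFun := fun T => ⟨extend T.1, (tab_extend hl T.1).1 T.2⟩
      invFun := fun T => ⟨fun x => T.1 x.1, (tab_extend hl _).2 (by
        have h : extend (lam := lam) (fun x => T.1 x.1) = T.1 := by
          funext x
          by_cases hx : x.2 < lam x.1
          · rw [extend_of _ hx]
          · unfold extend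
            rw [dif_neg hx, T.2.1 x hx]
        rw [h]
        exact T.2)⟩
      left_inv := fun T => by
        apply Subtype.ext
        funext x
        exact extend_of T.1 x.2
      right_inv := fun T => by
        apply Subtype.ext
        funext x
        by_cases hx : x.2 < lam x.1
        · exact extend_of _ hx
        · show extend (lam := lam) (fun x => T.1 x.1) x = T.1 x
          unfold extend
          rw [dif_neg hx, T.2.1 x hx] }

/-- Two polynomials with the same values at all positive integers agree. -/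
theorem poly_subsingleton (F : ℕ → ℕ) :
    {p : Polynomial ℚ | ∀ k : ℕ, 1 ≤ k → p.eval (k : ℚ) = ((F k : ℕ) : ℚ)}.Subsingleton := by
  intro p hp q hq
  apply Polynomial.eq_of_infinite_eval_eq
  refine (Set.infinite_range_of_injective (f := fun k : ℕ => ((k + 1 : ℕ) : ℚ)) ?_).mono ?_
  · intro a b h
    have h' : ((a + 1 : ℕ) : ℚ) = ((b + 1 : ℕ) : ℚ) := h
    have := Nat.cast_injective (R := ℚ) h'
    omega
  · rintro _ ⟨k, rfl⟩
    show p.eval _ = q.eval _
    rw [hp (k + 1) (by omega), hq (k + 1) (by omega)]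

theorem exists_bound {f : ℕ → ℕ} (hf : (Function.support f).Finite) :
    ∃ N, ∀ i, N ≤ i → f i = 0 := by
  obtain ⟨N, hN⟩ := hf.bddAbove
  refine ⟨N + 1, fun i hi => ?_⟩
  by_contra h
  have := hN h
  omega

/-- For every `m` only finitely many polynomials are stretched Kostka polynomials of pairs
`(lam, nu)` (a partition and a weight, `|lam| = |nu|`) with Kostka number `m`. -/
theorem result (m : ℕ) :
    {p : Polynomial ℚ | ∃ lam nu : ℕ → ℕ, IsPartition lam ∧ IsWeight nu ∧ size lam = size nu ∧
      kostka lam nu = m ∧ IsStretchedKostkaPolynomial lam nu p}.Finite := by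
  -- every stretched function is a stretched function of patterns with sorted content
  have key : ∀ lam nu : ℕ → ℕ, IsPartition lam → IsWeight nu → ∃ (N : ℕ) (nu' : ℕ → ℕ),
      Antitone nu' ∧ ∀ k : ℕ, kostka (fun i => k * lam i) (fun i => k * nu i) = SF N lam nu' k := by
    rintro lam nu ⟨hl, hf⟩ hw
    obtain ⟨N₁, h1⟩ := exists_bound hf
    obtain ⟨N₂, h2⟩ := exists_bound hw
    have h3 : ∀ i, max N₁ N₂ ≤ i → lam i = 0 ∧ nu i = 0 := fun i hi =>
      ⟨h1 i ((le_max_left _ _).trans hi), h2 i ((le_max_right _ _).trans hi)⟩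
    obtain ⟨nu', h4, -, h5⟩ := exists_sorted (n := max N₁ N₂) (nu := nu) fun i hi => (h3 i hi).2
    refine ⟨max N₁ N₂, nu', h4, fun k => ?_⟩
    have hl' : Antitone fun i => k * lam i := fun a b hab => Nat.mul_le_mul_left k (hl hab)
    rw [kostka_eq hl', card_ssyt _ _ hl' (max N₁ N₂)
      (fun i hi => by rw [(h3 i hi).1, (h3 i hi).2]; simp), ← h5]
    rfl
  have hone : ∀ (lam nu : ℕ → ℕ), kostka (fun i => 1 * lam i) (fun i => 1 * nu i) =
      kostka lam nu := by
    intro lam nu
    simp only [one_mul]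
  have hSF : ∀ (N : ℕ) (lam nu : ℕ → ℕ), SF N lam nu 1 = K N lam nu := by
    intro N lam nu
    simp [SF]
  obtain ⟨S, hS, hcov⟩ : ∃ S : Set (ℕ → ℕ), S.Finite ∧ ∀ lam nu : ℕ → ℕ, IsPartition lam →
      IsWeight nu → kostka lam nu = m → ∃ F ∈ S, ∀ k : ℕ, 1 ≤ k →
        kostka (fun i => k * lam i) (fun i => k * nu i) = F k := by
    rcases Nat.eq_zero_or_pos m with rfl | hm
    · refine ⟨{fun _ => 0}, Set.finite_singleton _, ?_⟩
      intro lam nu hl hw hk
      obtain ⟨N, nu', h1, h2⟩ := key lam nu hl hw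
      refine ⟨fun _ => 0, rfl, fun k hk1 => ?_⟩
      have h3 : K N lam nu' = 0 := by rw [← hSF, ← h2 1, hone, hk]
      rw [h2 k]
      exact K_zero_of_zero (n := N) (fun i _ => hl.1 (Nat.le_succ i))
        (fun i _ => h1 (Nat.le_succ i)) h3 hk1
    · refine ⟨SS m, SS_finite' m hm, ?_⟩
      intro lam nu hl hw hk
      obtain ⟨N, nu', h1, h2⟩ := key lam nu hl hw
      refine ⟨SF N lam nu', ⟨N, lam, nu', fun i _ => hl.1 (Nat.le_succ i),
        fun i _ => h1 (Nat.le_succ i), ?_, rfl⟩, fun k _ => h2 k⟩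
      rw [← hSF, ← h2 1, hone, hk]
  refine (hS.biUnion (t := fun F => {p : Polynomial ℚ | ∀ k : ℕ, 1 ≤ k →
    p.eval (k : ℚ) = ((F k : ℕ) : ℚ)}) (fun F _ => (poly_subsingleton F).finite)).subset ?_
  rintro p ⟨lam, nu, hl, hw, -, hk, hp⟩
  obtain ⟨F, hF, hF'⟩ := hcov lam nu hl hw hk
  refine Set.mem_biUnion hF fun k hk1 => ?_
  rw [hp k hk1, hF' k hk1]

end Pool.Agent.Results.MP_62af7b_co.StretchedKostka
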